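import Pool.Agent.X297.LO.Stm

set_option autoImplicit false

namespace Pool.Agent.X50.LO

open Pool.Agent.X297.LO

variable {n : ℕ}

/-- basis vector -/
abbrev e (i : Fin n) : Fin n → ℤ := Pi.single i 1

lemma e_app (i t : Fin n) : e i t = if t = i then 1 else 0 := by
  simp [e, Pi.single_apply]

lemma e_nonneg (i t : Fin n) : 0 ≤ e i t := by
  rw [e_app]; split_ifs <;> norm_num

lemma e_self (i : Fin n) : e i i = 1 := by rw [e_app, if_pos rfl]

lemma L1 {i j : Fin n} (h : e i = e j) : i = j := by
  have := congrFun h i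
  rw [e_self, e_app] at this
  by_contra hne
  rw [if_neg hne] at this
  exact one_ne_zero this

lemma L2 {i j a b : Fin n} (h : e i + e j = e a + e b) : (i = a ∧ j = b) ∨ (i = b ∧ j = a) := by
  have hi := congrFun h i
  simp only [Pi.add_apply] at hi
  rw [e_self] at hi
  have hj := e_nonneg j i
  have hor : i = a ∨ i = b := by
    by_contra hne
    push Not at hne
    rw [e_app a, e_app b, if_neg hne.1, if_neg hne.2] at hi
    omega
  rcases hor with rfl | rfl
  · left
    exact ⟨rfl, L1 (add_left_cancel h)⟩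
  · right
    rw [add_comm (e a)] at h
    exact ⟨rfl, L1 (add_left_cancel h)⟩

lemma L3 {i j l a b c : Fin n} (h : e i + e j + e l = e a + e b + e c) :
    (i, j, l) = (a, b, c) ∨ (i, j, l) = (a, c, b) ∨ (i, j, l) = (b, a, c) ∨ (i, j, l) = (b, c, a) ∨
      (i, j, l) = (c, a, b) ∨ (i, j, l) = (c, b, a) := by
  have hi := congrFun h i
  simp only [Pi.add_apply] at hi
  rw [e_self] at hi
  have hj := e_nonneg j i
  have hl := e_nonneg l i
  have hor : i = a ∨ i = b ∨ i = c := by
    by_contra hne
    push Not at hne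
    rw [e_app a, e_app b, e_app c, if_neg hne.1, if_neg hne.2.1, if_neg hne.2.2] at hi
    omega
  rcases hor with rfl | rfl | rfl
  · have h' : e j + e l = e b + e c := by
      have : e i + (e j + e l) = e i + (e b + e c) := by rw [← add_assoc, ← add_assoc]; exact h
      exact add_left_cancel this
    rcases L2 h' with ⟨rfl, rfl⟩ | ⟨rfl, rfl⟩ <;> simp
  · have h' : e j + e l = e a + e c := by
      have : e i + (e j + e l) = e i + (e a + e c) := by
        rw [← add_assoc, h]; abel
      exact add_left_cancel this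
    rcases L2 h' with ⟨rfl, rfl⟩ | ⟨rfl, rfl⟩ <;> simp
  · have h' : e j + e l = e a + e b := by
      have : e i + (e j + e l) = e i + (e a + e b) := by
        rw [← add_assoc, h]; abel
      exact add_left_cancel this
    rcases L2 h' with ⟨rfl, rfl⟩ | ⟨rfl, rfl⟩ <;> simp

theorem t_SID : Pool.Agent.X297.LO.S_SID := by
  classical
  intro n hn
  refine ⟨?_, ?_, ?_⟩
  · intro k
    unfold cnt
    rw [Nat.card_eq_fintype_card, Fintype.card_subtype]
    rcases Finset.eq_empty_or_nonempty (Finset.univ.filter (fun p : Fin n × Fin n × Fin n =>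
      (1 : ℤ) • (Pi.single p.1 1 : Fin n → ℤ) + (1 : ℤ) • (Pi.single p.2.1 1 : Fin n → ℤ)
        + (1 : ℤ) • (Pi.single p.2.2 1 : Fin n → ℤ) = k)) with h0 | ⟨⟨a, b, c⟩, h0⟩
    · rw [h0]; simp
    · have hk := (Finset.mem_filter.mp h0).2
      simp only [one_smul] at hk
      refine (Finset.card_le_card (t := {(a, b, c), (a, c, b), (b, a, c), (b, c, a), (c, a, b),
        (c, b, a)}) ?_).trans Finset.card_le_six
      rintro ⟨i, j, l⟩ hp
      have hp' := (Finset.mem_filter.mp hp).2
      simp only [one_smul] at hp'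
      have := L3 (hp'.trans hk.symm)
      simp only [Finset.mem_insert, Finset.mem_singleton]
      exact this
  · intro k
    unfold cnt
    rw [Nat.card_eq_fintype_card, Fintype.card_subtype]
    have h6 := Finset.card_le_mul_card_image_of_maps_to
      (f := fun p : Fin n × Fin n × Fin n => p.2.1)
      (s := Finset.univ.filter (fun p : Fin n × Fin n × Fin n =>
        (1 : ℤ) • (Pi.single p.1 1 : Fin n → ℤ) + (-1 : ℤ) • (Pi.single p.2.1 1 : Fin n → ℤ)
        + (1 : ℤ) • (Pi.single p.2.2 1 : Fin n → ℤ) = k))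
      (t := (Finset.univ : Finset (Fin n))) (fun a _ => Finset.mem_univ _) 2 ?_
    · simpa using h6
    · intro j _
      rcases Finset.eq_empty_or_nonempty ((Finset.univ.filter (fun p : Fin n × Fin n × Fin n =>
        (1 : ℤ) • (Pi.single p.1 1 : Fin n → ℤ) + (-1 : ℤ) • (Pi.single p.2.1 1 : Fin n → ℤ)
        + (1 : ℤ) • (Pi.single p.2.2 1 : Fin n → ℤ) = k)).filter (fun p => p.2.1 = j)) with
        h0 | ⟨⟨a, b, c⟩, h0⟩
      · rw [h0]; simp
      · have hb : b = j := (Finset.mem_filter.mp h0).2
        have hk := (Finset.mem_filter.mp (Finset.mem_filter.mp h0).1).2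
        simp only [one_smul, neg_smul] at hk
        refine (Finset.card_le_card (t := {(a, j, c), (c, j, a)}) ?_).trans Finset.card_le_two
        rintro ⟨i, j', l⟩ hp
        have hj : j' = j := (Finset.mem_filter.mp hp).2
        have hp' := (Finset.mem_filter.mp (Finset.mem_filter.mp hp).1).2
        simp only [one_smul, neg_smul] at hp'
        subst hb
        subst hj
        have h7 : e i + e l = e a + e c := by
          have h8 := hp'.trans hk.symm
          have h9 : e i + e l = (e i + -e j' + e l) + e j' := by abel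
          rw [h9]
          have h10 : (e i + -e j' + e l) = (e a + -e j' + e c) := h8
          rw [h10]
          abel
        simp only [Finset.mem_insert, Finset.mem_singleton, Prod.mk.injEq]
        rcases L2 h7 with ⟨rfl, rfl⟩ | ⟨rfl, rfl⟩
        · left; simp
        · right; simp
  · refine ⟨(2 : ℤ) • (Pi.single (⟨0, hn⟩ : Fin n) 1 : Fin n → ℤ), ?_⟩
    unfold cnt
    have hinj : Function.Injective (fun i : Fin n =>
        (⟨(i, i, ⟨0, hn⟩), by simp⟩ : {p : Fin n × Fin n × Fin n //
          (1 : ℤ) • (Pi.single p.1 1 : Fin n → ℤ) + (-1 : ℤ) • (Pi.single p.2.1 1 : Fin n → ℤ)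
          + (2 : ℤ) • (Pi.single p.2.2 1 : Fin n → ℤ)
            = (2 : ℤ) • (Pi.single (⟨0, hn⟩ : Fin n) 1 : Fin n → ℤ)})) := by
      intro i j hij
      have := congrArg (fun q => q.1.1) hij
      exact this
    have h := Nat.card_le_card_of_injective _ hinj
    simpa using h

end Pool.Agent.X50.LO
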